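import Mathlib
import Pool.Agent.J4H83.SikorskiDefs
import Pool.Agent.J4H83.SikorskiSpace

set_option autoImplicit false

open Cardinal TopologicalSpace Pool.Agent.J4H83.Sikorski

namespace Pool.Agent.Results.MP_6fd33d_al.NotSmallest

/-- For all infinite cardinals `n ≤ m` and every index set with at least two elements, the minimal
`(m,n)`-product of copies of the countable atomless Boolean algebra exists, and it is not the
smallest `(m,n)`-product. -/
theorem result (T : Type) (t₀ t₁ : T) (hne : t₀ ≠ t₁) (m n : Cardinal.{0})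
    (hn : ℵ₀ ≤ n) (hnm : n ≤ m) :
    (∃ M : MNProduct m n (fun _ : T => Clopens (ℕ → Bool)), M.Minimal) ∧
    ∃ Q : MNProduct m n (fun _ : T => Clopens (ℕ → Bool)),
      ∀ M : MNProduct m n (fun _ : T => Clopens (ℕ → Bool)), M.Minimal → ¬ M.LE Q :=
  main T t₀ t₁ hne m n hn hnm

end Pool.Agent.Results.MP_6fd33d_al.NotSmallest
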